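import Mathlib

set_option autoImplicit false

/-! Lattice points versus 0/1 matrices for laminar families of constraints. -/

namespace Pool.Agent.MPedc851

open Polynomial Finset

variable {ι : Type} [Fintype ι] [DecidableEq ι]

/-- Points supported on `U`, satisfying the constraints of the family `S`, with total at most `N`. -/
def PB (m : ℕ) (U : Finset ι) (S : Finset (Finset ι)) (N : ℕ) : Finset (ι → ℕ) :=
  (Fintype.piFinset (fun i => if i ∈ U then range (N + 1) else {0})).filter
    (fun x => (∀ F ∈ S, ∑ i ∈ F, x i ≤ m * F.card) ∧ ∑ i ∈ U, x i ≤ N)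

lemma mem_PB {m : ℕ} {U : Finset ι} {S : Finset (Finset ι)} {N : ℕ} {x : ι → ℕ} :
    x ∈ PB m U S N ↔ (∀ i, i ∉ U → x i = 0) ∧ (∀ F ∈ S, ∑ i ∈ F, x i ≤ m * F.card) ∧
      ∑ i ∈ U, x i ≤ N := by
  unfold PB
  rw [mem_filter, Fintype.mem_piFinset]
  constructor
  · rintro ⟨h1, h2, h3⟩
    refine ⟨?_, h2, h3⟩
    intro i hi
    have := h1 i
    rw [if_neg hi, mem_singleton] at this
    exact this
  · rintro ⟨h1, h2, h3⟩
    refine ⟨?_, h2, h3⟩
    intro i
    by_cases hi : i ∈ U
    · rw [if_pos hi, mem_range]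
      have := Finset.single_le_sum (f := x) (fun j _ => Nat.zero_le _) hi
      omega
    · rw [if_neg hi, mem_singleton]
      exact h1 i hi

/-- The reversed generating polynomial. -/
noncomputable def fp (m : ℕ) (U : Finset ι) (S : Finset (Finset ι)) (N : ℕ) : ℤ[X] :=
  ∑ x ∈ PB m U S N, X ^ (N - ∑ i ∈ U, x i)

/-- Adding a free coordinate. -/
lemma fp_insert {m : ℕ} {U : Finset ι} {S : Finset (Finset ι)} {N : ℕ} {a : ι} (ha : a ∉ U)
    (hS : ∀ F ∈ S, a ∉ F) :
    fp m (insert a U) S N = ∑ j ∈ range (N + 1), fp m U S j := by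
  unfold fp
  rw [Finset.sum_sigma']
  symm
  apply Finset.sum_bij' (fun (p : Σ _ : ℕ, ι → ℕ) _ => Function.update p.2 a (N - p.1))
    (fun (x : ι → ℕ) _ => (⟨N - x a, Function.update x a 0⟩ : Σ _ : ℕ, ι → ℕ))
  case hi =>
    rintro ⟨j, x⟩ hp
    simp only [mem_sigma, mem_range, mem_PB] at hp ⊢
    obtain ⟨hj, h1, h2, h3⟩ := hp
    refine ⟨?_, ?_, ?_⟩
    · intro i hi
      rw [mem_insert, not_or] at hi
      rw [Function.update_of_ne hi.1]
      exact h1 i hi.2
    · intro F hF
      rw [Finset.sum_update_of_notMem (hS F hF)]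
      exact h2 F hF
    · rw [Finset.sum_insert ha, Function.update_self, Finset.sum_update_of_notMem ha]
      omega
  case hj =>
    intro x hx
    simp only [mem_sigma, mem_range, mem_PB] at hx ⊢
    obtain ⟨h1, h2, h3⟩ := hx
    rw [Finset.sum_insert ha] at h3
    refine ⟨by omega, ?_, ?_, ?_⟩
    · intro i hi
      by_cases hia : i = a
      · subst hia; simp
      · rw [Function.update_of_ne hia]
        exact h1 i (by rw [mem_insert]; tauto)
    · intro F hF
      rw [Finset.sum_update_of_notMem (hS F hF)]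
      exact h2 F hF
    · rw [Finset.sum_update_of_notMem ha]
      omega
  case left_neg =>
    rintro ⟨j, x⟩ hp
    simp only [mem_sigma, mem_range, mem_PB] at hp
    obtain ⟨hj, h1, h2, h3⟩ := hp
    have hxa : x a = 0 := h1 a ha
    simp only [Function.update_self, Function.update_idem]
    have e1 : N - (N - j) = j := by omega
    rw [e1]
    congr 1
    rw [← hxa, Function.update_eq_self]
  case right_neg =>
    intro x hx
    simp only [mem_PB] at hx
    obtain ⟨h1, h2, h3⟩ := hx
    rw [Finset.sum_insert ha] at h3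
    simp only [Function.update_idem]
    have e1 : N - (N - x a) = x a := by omega
    rw [e1, Function.update_eq_self]
  case h =>
    rintro ⟨j, x⟩ hp
    simp only [mem_sigma, mem_range, mem_PB] at hp ⊢
    obtain ⟨hj, h1, h2, h3⟩ := hp
    rw [Finset.sum_insert ha, Function.update_self, Finset.sum_update_of_notMem ha]
    congr 1
    omega

/-- Increasing the bound by one. -/
lemma fp_succ (m : ℕ) (U : Finset ι) (S : Finset (Finset ι)) (N : ℕ) :
    fp m U S (N + 1) = X * fp m U S N +
      C (((PB m U S (N + 1)).filter (fun x => ∑ i ∈ U, x i = N + 1)).card : ℤ) := by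
  unfold fp
  rw [← Finset.sum_filter_add_sum_filter_not (PB m U S (N + 1)) (fun x => ∑ i ∈ U, x i = N + 1),
    add_comm]
  congr 1
  · rw [Finset.mul_sum]
    have hset : (PB m U S (N + 1)).filter (fun x => ¬ ∑ i ∈ U, x i = N + 1) = PB m U S N := by
      ext x
      rw [mem_filter, mem_PB, mem_PB]
      constructor
      · rintro ⟨⟨h1, h2, h3⟩, h4⟩
        exact ⟨h1, h2, by omega⟩
      · rintro ⟨h1, h2, h3⟩
        exact ⟨⟨h1, h2, by omega⟩, by omega⟩
    rw [hset]
    apply Finset.sum_congr rfl
    intro x hx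
    rw [mem_PB] at hx
    rw [← pow_succ']
    congr 1
    omega
  · rw [Finset.sum_congr rfl (g := fun _ => (1 : ℤ[X]))]
    · rw [Finset.sum_const, nsmul_eq_mul, mul_one]
      simp
    · intro x hx
      rw [mem_filter] at hx
      rw [hx.2, Nat.sub_self, pow_zero]

/-- substitution `X ↦ X + 1`. -/
noncomputable def sg (p : ℤ[X]) : ℤ[X] := p.comp (X + 1)

lemma sg_add (p q : ℤ[X]) : sg (p + q) = sg p + sg q := by simp [sg]
lemma sg_mul (p q : ℤ[X]) : sg (p * q) = sg p * sg q := by simp [sg]
lemma sg_pow (p : ℤ[X]) (k : ℕ) : sg (p ^ k) = sg p ^ k := by simp [sg]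
lemma sg_X : sg X = X + 1 := by simp [sg]
lemma sg_one : sg 1 = 1 := by simp [sg]
lemma sg_C (c : ℤ) : sg (C c) = C c := by simp [sg]

lemma divX_sg {m : ℕ} {U : Finset ι} {S : Finset (Finset ι)} {N : ℕ} {a : ι} (ha : a ∉ U)
    (hS : ∀ F ∈ S, a ∉ F) :
    divX (sg (fp m U S (N + 1))) = sg (fp m (insert a U) S N) := by
  have h1 := fp_insert (m := m) (N := N) ha hS
  have h2 := fp_insert (m := m) (N := N + 1) ha hS
  rw [Finset.sum_range_succ, ← h1] at h2
  have h3 := fp_succ m (insert a U) S N
  set c : ℤ := (((PB m (insert a U) S (N + 1)).filter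
    (fun x => ∑ i ∈ insert a U, x i = N + 1)).card : ℤ) with hc
  have h4 : fp m U S (N + 1) = (X - 1) * fp m (insert a U) S N + C c := by
    linear_combination h3 - h2
  have h5 : sg (fp m U S (N + 1)) = X * sg (fp m (insert a U) S N) + C c := by
    rw [h4, sg_add, sg_mul, sg_C]
    congr 2
    simp [sg]
  rw [h5, divX_add, divX_C, add_zero]
  ext n
  rw [coeff_divX, coeff_X_mul]

/-- Adding a whole block. -/
lemma divX_block {m : ℕ} (U : Finset ι) (S : Finset (Finset ι)) (B : Finset ι) :
    Disjoint B U → (∀ F ∈ S, Disjoint B F) → ∀ N,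
    divX^[B.card] (sg (fp m U S (N + B.card))) = sg (fp m (B ∪ U) S N) := by
  induction B using Finset.induction_on with
  | empty => intro _ _ N; simp
  | insert a B ha ih =>
    intro hd hS N
    rw [Finset.disjoint_insert_left] at hd
    have hS' : ∀ F ∈ S, Disjoint B F := fun F hF => by
      have := hS F hF
      rw [Finset.disjoint_insert_left] at this
      exact this.2
    have hSa : ∀ F ∈ S, a ∉ F := fun F hF => by
      have := hS F hF
      rw [Finset.disjoint_insert_left] at this
      exact this.1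
    rw [Finset.card_insert_of_notMem ha, Function.iterate_succ_apply']
    have e : N + (B.card + 1) = (N + 1) + B.card := by ring
    rw [e, ih hd.2 hS' (N + 1), insert_union, divX_sg _ hSa]
    rw [mem_union, not_or]
    exact ⟨ha, hd.1⟩

lemma iterate_divX_add (b : ℕ) (p q : ℤ[X]) :
    divX^[b] (p + q) = divX^[b] p + divX^[b] q := by
  induction b generalizing p q with
  | zero => rfl
  | succ b ih => rw [Function.iterate_succ_apply, Function.iterate_succ_apply,
      Function.iterate_succ_apply, divX_add, ih]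

lemma iterate_divX_zero (b : ℕ) : divX^[b] (0 : ℤ[X]) = 0 := by
  induction b with
  | zero => rfl
  | succ b ih => rw [Function.iterate_succ_apply, divX_zero, ih]

lemma iterate_divX_sum {α : Type} (b : ℕ) (s : Finset α) (g : α → ℤ[X]) :
    divX^[b] (∑ a ∈ s, g a) = ∑ a ∈ s, divX^[b] (g a) := by
  classical
  induction s using Finset.induction_on with
  | empty => simp [iterate_divX_zero]
  | insert a s ha ih => rw [Finset.sum_insert ha, Finset.sum_insert ha, iterate_divX_add, ih]

lemma iterate_divX_pow (b k : ℕ) :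
    divX^[b] (X ^ k : ℤ[X]) = if b ≤ k then X ^ (k - b) else 0 := by
  induction b generalizing k with
  | zero => simp
  | succ b ih =>
    rw [Function.iterate_succ_apply]
    cases k with
    | zero =>
      rw [pow_zero, divX_one, iterate_divX_zero]
      simp
    | succ k =>
      rw [divX_X_pow]
      simp only [Nat.add_eq_zero_iff, one_ne_zero, and_false, if_false, Nat.add_sub_cancel]
      rw [ih]
      simp only [Nat.add_le_add_iff_right, Nat.add_sub_add_right]

end Pool.Agent.MPedc851
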