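import Pool.Agent.MPedc851.Laminar

set_option autoImplicit false
set_option linter.unusedSectionVars false

/-! Lattice points versus 0/1 matrices for laminar families of constraints, part two. -/

namespace Pool.Agent.MPedc851

open Polynomial Finset

variable {ι : Type} [Fintype ι] [DecidableEq ι]

/-- The family bounds the total on `U` from above. -/
def Upper (m : ℕ) (U : Finset ι) (S : Finset (Finset ι)) : Prop :=
  ∀ x : ι → ℕ, (∀ F ∈ S, ∑ i ∈ F, x i ≤ m * F.card) → ∑ i ∈ U, x i ≤ m * U.card

lemma fp_extend {m : ℕ} {U : Finset ι} {S : Finset (Finset ι)} (h : Upper m U S) {N : ℕ}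
    (hN : m * U.card ≤ N) :
    fp m U S N = X ^ (N - m * U.card) * fp m U S (m * U.card) := by
  unfold fp
  rw [Finset.mul_sum]
  have hset : PB m U S N = PB m U S (m * U.card) := by
    ext x
    rw [mem_PB, mem_PB]
    constructor
    · rintro ⟨h1, h2, h3⟩
      exact ⟨h1, h2, h x h2⟩
    · rintro ⟨h1, h2, h3⟩
      exact ⟨h1, h2, h3.trans hN⟩
  rw [hset]
  apply Finset.sum_congr rfl
  intro x hx
  rw [mem_PB] at hx
  rw [← pow_add]
  congr 1
  omega

/-- Restriction of a point. -/
def rs (U : Finset ι) (x : ι → ℕ) : ι → ℕ := fun i => if i ∈ U then x i else 0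

lemma sum_rs_of_subset {U F : Finset ι} (h : F ⊆ U) (x : ι → ℕ) :
    ∑ i ∈ F, rs U x i = ∑ i ∈ F, x i := by
  apply Finset.sum_congr rfl
  intro i hi
  simp [rs, h hi]

lemma sum_eq_zero_of_disj {U F : Finset ι} (h : Disjoint F U) {x : ι → ℕ}
    (hx : ∀ i, i ∉ U → x i = 0) : ∑ i ∈ F, x i = 0 := by
  apply Finset.sum_eq_zero
  intro i hi
  exact hx i (Finset.disjoint_left.1 h hi)

lemma fp_union {m : ℕ} {U V : Finset ι} {S T : Finset (Finset ι)} (hd : Disjoint U V)
    (hS : ∀ F ∈ S, F ⊆ U) (hT : ∀ F ∈ T, F ⊆ V) (h1 : Upper m U S) (h2 : Upper m V T) :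
    fp m (U ∪ V) (S ∪ T) (m * (U ∪ V).card) =
      fp m U S (m * U.card) * fp m V T (m * V.card) := by
  unfold fp
  rw [Finset.sum_mul_sum, ← Finset.sum_product']
  apply Finset.sum_bij' (fun (z : ι → ℕ) _ => ((rs U z, rs V z) : (ι → ℕ) × (ι → ℕ)))
    (fun (p : (ι → ℕ) × (ι → ℕ)) _ => p.1 + p.2)
  case hi =>
    intro z hz
    rw [mem_PB] at hz
    obtain ⟨z1, z2, z3⟩ := hz
    rw [Finset.mem_product, mem_PB, mem_PB]
    have a1 : ∀ F ∈ S, ∑ i ∈ F, z i ≤ m * F.card := fun F hF => z2 F (mem_union_left _ hF)
    have a2 : ∀ F ∈ T, ∑ i ∈ F, z i ≤ m * F.card := fun F hF => z2 F (mem_union_right _ hF)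
    refine ⟨⟨?_, ?_, ?_⟩, ⟨?_, ?_, ?_⟩⟩
    · intro i hi; simp [rs, hi]
    · intro F hF; rw [sum_rs_of_subset (hS F hF)]; exact a1 F hF
    · rw [sum_rs_of_subset (Finset.Subset.refl U)]; exact h1 z a1
    · intro i hi; simp [rs, hi]
    · intro F hF; rw [sum_rs_of_subset (hT F hF)]; exact a2 F hF
    · rw [sum_rs_of_subset (Finset.Subset.refl V)]; exact h2 z a2
  case hj =>
    rintro ⟨x, y⟩ hp
    rw [Finset.mem_product, mem_PB, mem_PB] at hp
    obtain ⟨⟨x1, x2, x3⟩, ⟨y1, y2, y3⟩⟩ := hp
    rw [mem_PB]
    simp only at x1 x2 x3 y1 y2 y3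
    have zx : ∀ F, F ⊆ V → ∑ i ∈ F, x i = 0 := fun F hF =>
      sum_eq_zero_of_disj (Disjoint.mono_left hF hd.symm) x1
    have zy : ∀ F, F ⊆ U → ∑ i ∈ F, y i = 0 := fun F hF =>
      sum_eq_zero_of_disj (Disjoint.mono_left hF hd) y1
    refine ⟨?_, ?_, ?_⟩
    · intro i hi
      rw [mem_union, not_or] at hi
      change x i + y i = 0
      rw [x1 i hi.1, y1 i hi.2]
    · intro F hF
      simp only [Pi.add_apply, Finset.sum_add_distrib]
      rw [mem_union] at hF
      rcases hF with hF | hF
      · rw [zy F (hS F hF), add_zero]; exact x2 F hF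
      · rw [zx F (hT F hF), zero_add]; exact y2 F hF
    · simp only [Pi.add_apply, Finset.sum_add_distrib]
      rw [Finset.sum_union hd, Finset.sum_union hd, zx V (Finset.Subset.refl V),
        zy U (Finset.Subset.refl U), Finset.card_union_of_disjoint hd, mul_add]
      omega
  case left_neg =>
    intro z hz
    rw [mem_PB] at hz
    funext i
    simp only [Pi.add_apply, rs]
    by_cases hu : i ∈ U
    · have hv : i ∉ V := Finset.disjoint_left.1 hd hu
      simp [hu, hv]
    · by_cases hv : i ∈ V
      · simp [hu, hv]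
      · have := hz.1 i (by rw [mem_union]; tauto)
        simp [hu, hv, this]
  case right_neg =>
    rintro ⟨x, y⟩ hp
    rw [Finset.mem_product, mem_PB, mem_PB] at hp
    obtain ⟨⟨x1, x2, x3⟩, ⟨y1, y2, y3⟩⟩ := hp
    simp only at x1 x2 x3 y1 y2 y3
    apply Prod.ext
    · funext i
      simp only [rs, Pi.add_apply]
      by_cases hu : i ∈ U
      · have hv : i ∉ V := Finset.disjoint_left.1 hd hu
        simp [hu, y1 i hv]
      · simp [hu, x1 i hu]
    · funext i
      simp only [rs, Pi.add_apply]
      by_cases hv : i ∈ V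
      · have hu : i ∉ U := Finset.disjoint_right.1 hd hv
        simp [hv, x1 i hu]
      · simp [hv, y1 i hv]
  case h =>
    intro z hz
    rw [mem_PB] at hz
    obtain ⟨z1, z2, z3⟩ := hz
    have a1 := h1 z (fun F hF => z2 F (mem_union_left _ hF))
    have a2 := h2 z (fun F hF => z2 F (mem_union_right _ hF))
    simp only
    rw [← pow_add, Finset.sum_union hd, Finset.card_union_of_disjoint hd,
      sum_rs_of_subset (Finset.Subset.refl U), sum_rs_of_subset (Finset.Subset.refl V), mul_add]
    congr 1
    omega

/-- Number of cells of `A` in the columns `F`. -/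
def cn {m : ℕ} (A : Finset (Fin (m + 1) × ι)) (F : Finset ι) : ℕ :=
  (A.filter (fun p => p.2 ∈ F)).card

/-- 0/1 matrices. -/
def GB (m : ℕ) (U : Finset ι) (S : Finset (Finset ι)) : Finset (Finset (Fin (m + 1) × ι)) :=
  ((Finset.univ ×ˢ U).powerset).filter (fun A => ∀ F ∈ S, F.card ≤ cn A F)

lemma mem_GB {m : ℕ} {U : Finset ι} {S : Finset (Finset ι)} {A : Finset (Fin (m + 1) × ι)} :
    A ∈ GB m U S ↔ (∀ p ∈ A, p.2 ∈ U) ∧ ∀ F ∈ S, F.card ≤ cn A F := by
  unfold GB
  rw [mem_filter, mem_powerset]
  constructor
  · rintro ⟨h1, h2⟩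
    exact ⟨fun p hp => (Finset.mem_product.1 (h1 hp)).2, h2⟩
  · rintro ⟨h1, h2⟩
    exact ⟨fun p hp => Finset.mem_product.2 ⟨Finset.mem_univ _, h1 p hp⟩, h2⟩

/-- Generating polynomial of 0/1 matrices. -/
noncomputable def gp (m : ℕ) (U : Finset ι) (S : Finset (Finset ι)) : ℤ[X] :=
  ∑ A ∈ GB m U S, X ^ (A.card - U.card)

/-- The family bounds the total on `U` from below. -/
def Lower (m : ℕ) (U : Finset ι) (S : Finset (Finset ι)) : Prop :=
  ∀ A : Finset (Fin (m + 1) × ι), (∀ F ∈ S, F.card ≤ cn A F) → U.card ≤ cn A U

lemma cn_self {m : ℕ} {A : Finset (Fin (m + 1) × ι)} {U : Finset ι} (h : ∀ p ∈ A, p.2 ∈ U) :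
    cn A U = A.card := by
  unfold cn
  rw [Finset.filter_true_of_mem h]

lemma cn_union {m : ℕ} {A : Finset (Fin (m + 1) × ι)} {U V : Finset ι} (h : Disjoint U V) :
    cn A (U ∪ V) = cn A U + cn A V := by
  unfold cn
  rw [← Finset.card_union_of_disjoint]
  · congr 1
    ext p
    simp only [mem_filter, mem_union]
    tauto
  · rw [Finset.disjoint_left]
    intro p hp hq
    rw [mem_filter] at hp hq
    exact Finset.disjoint_left.1 h hp.2 hq.2

lemma cn_filter_of_subset {m : ℕ} {A : Finset (Fin (m + 1) × ι)} {U F : Finset ι} (h : F ⊆ U) :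
    cn (A.filter (fun p => p.2 ∈ U)) F = cn A F := by
  unfold cn
  rw [Finset.filter_filter]
  congr 1
  ext p
  simp only [mem_filter]
  constructor
  · rintro ⟨h1, _, h3⟩; exact ⟨h1, h3⟩
  · rintro ⟨h1, h3⟩; exact ⟨h1, h h3, h3⟩

lemma cn_eq_zero {m : ℕ} {A : Finset (Fin (m + 1) × ι)} {U F : Finset ι} (h : Disjoint F U)
    (hA : ∀ p ∈ A, p.2 ∈ U) : cn A F = 0 := by
  unfold cn
  rw [Finset.card_eq_zero, Finset.filter_eq_empty_iff]
  intro p hp hF
  exact Finset.disjoint_left.1 h hF (hA p hp)

lemma cn_union_left {m : ℕ} {A B : Finset (Fin (m + 1) × ι)} {F : Finset ι}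
    (h : Disjoint A B) : cn (A ∪ B) F = cn A F + cn B F := by
  unfold cn
  rw [Finset.filter_union, Finset.card_union_of_disjoint]
  exact Finset.disjoint_filter_filter h

lemma disj_cells {m : ℕ} {A B : Finset (Fin (m + 1) × ι)} {U V : Finset ι} (h : Disjoint U V)
    (hA : ∀ p ∈ A, p.2 ∈ U) (hB : ∀ p ∈ B, p.2 ∈ V) : Disjoint A B := by
  rw [Finset.disjoint_left]
  intro p hp hq
  exact Finset.disjoint_left.1 h (hA p hp) (hB p hq)

lemma gp_union {m : ℕ} {U V : Finset ι} {S T : Finset (Finset ι)} (hd : Disjoint U V)
    (hS : ∀ F ∈ S, F ⊆ U) (hT : ∀ F ∈ T, F ⊆ V) (h1 : Lower m U S) (h2 : Lower m V T) :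
    gp m (U ∪ V) (S ∪ T) = gp m U S * gp m V T := by
  unfold gp
  rw [Finset.sum_mul_sum, ← Finset.sum_product']
  apply Finset.sum_bij' (fun (A : Finset (Fin (m + 1) × ι)) _ =>
      ((A.filter (fun p => p.2 ∈ U), A.filter (fun p => p.2 ∈ V)) :
        Finset (Fin (m + 1) × ι) × Finset (Fin (m + 1) × ι)))
    (fun (p : Finset (Fin (m + 1) × ι) × Finset (Fin (m + 1) × ι)) _ => p.1 ∪ p.2)
  case hi =>
    intro A hA
    rw [mem_GB] at hA
    rw [Finset.mem_product, mem_GB, mem_GB]
    refine ⟨⟨?_, ?_⟩, ⟨?_, ?_⟩⟩
    · intro p hp; exact (mem_filter.1 hp).2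
    · intro F hF
      simp only
      rw [cn_filter_of_subset (hS F hF)]
      exact hA.2 F (mem_union_left _ hF)
    · intro p hp; exact (mem_filter.1 hp).2
    · intro F hF
      simp only
      rw [cn_filter_of_subset (hT F hF)]
      exact hA.2 F (mem_union_right _ hF)
  case hj =>
    rintro ⟨A, B⟩ hp
    rw [Finset.mem_product, mem_GB, mem_GB] at hp
    obtain ⟨⟨a1, a2⟩, ⟨b1, b2⟩⟩ := hp
    simp only at a1 a2 b1 b2
    have hAB := disj_cells hd a1 b1
    rw [mem_GB]
    refine ⟨?_, ?_⟩
    · intro p hp
      rw [mem_union] at hp ⊢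
      rcases hp with hp | hp
      · exact Or.inl (a1 p hp)
      · exact Or.inr (b1 p hp)
    · intro F hF
      simp only
      rw [cn_union_left hAB]
      rw [mem_union] at hF
      rcases hF with hF | hF
      · have := a2 F hF; omega
      · have := b2 F hF; omega
  case left_neg =>
    intro A hA
    rw [mem_GB] at hA
    simp only
    ext p
    rw [mem_union, mem_filter, mem_filter]
    constructor
    · rintro (h | h)
      · exact h.1
      · exact h.1
    · intro hp
      have := hA.1 p hp
      rw [mem_union] at this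
      rcases this with h | h
      · exact Or.inl ⟨hp, h⟩
      · exact Or.inr ⟨hp, h⟩
  case right_neg =>
    rintro ⟨A, B⟩ hp
    rw [Finset.mem_product, mem_GB, mem_GB] at hp
    obtain ⟨⟨a1, a2⟩, ⟨b1, b2⟩⟩ := hp
    simp only at a1 a2 b1 b2
    apply Prod.ext
    · ext p
      simp only [mem_filter, mem_union]
      constructor
      · rintro ⟨h | h, h'⟩
        · exact h
        · exact absurd (b1 p h) (Finset.disjoint_left.1 hd h')
      · intro h; exact ⟨Or.inl h, a1 p h⟩
    · ext p
      simp only [mem_filter, mem_union]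
      constructor
      · rintro ⟨h | h, h'⟩
        · exact absurd h' (Finset.disjoint_left.1 hd (a1 p h))
        · exact h
      · intro h; exact ⟨Or.inr h, b1 p h⟩
  case h =>
    intro A hA
    rw [mem_GB] at hA
    have e1 := h1 A (fun F hF => hA.2 F (mem_union_left _ hF))
    have e2 := h2 A (fun F hF => hA.2 F (mem_union_right _ hF))
    have e3 : A.card = cn A U + cn A V := by rw [← cn_union hd, cn_self hA.1]
    simp only
    rw [← pow_add]
    have e4 : (A.filter (fun p => p.2 ∈ U)).card = cn A U := rfl
    have e5 : (A.filter (fun p => p.2 ∈ V)).card = cn A V := rfl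
    rw [e4, e5, e3, Finset.card_union_of_disjoint hd]
    congr 1
    omega

/-- Adding a block of columns. -/
lemma gp_block {m : ℕ} (U : Finset ι) (S : Finset (Finset ι)) (B : Finset ι)
    (hd : Disjoint B U) (hS : ∀ F ∈ S, F ⊆ U) (h1 : Lower m U S) :
    gp m (B ∪ U) (insert (B ∪ U) S) = divX^[B.card] ((X + 1) ^ ((m + 1) * B.card) * gp m U S) := by
  have hpow : ((X + 1 : ℤ[X])) ^ ((m + 1) * B.card) =
      ∑ A ∈ ((Finset.univ : Finset (Fin (m + 1))) ×ˢ B).powerset, X ^ A.card := by
    have h := Finset.sum_pow_mul_eq_add_pow (X : ℤ[X]) 1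
      ((Finset.univ : Finset (Fin (m + 1))) ×ˢ B)
    rw [Finset.card_product, Finset.card_univ, Fintype.card_fin] at h
    rw [← h]
    apply Finset.sum_congr rfl
    intro A _
    rw [one_pow, mul_one]
  rw [hpow]
  unfold gp
  rw [Finset.sum_mul_sum, ← Finset.sum_product', iterate_divX_sum]
  have e1 : ∀ p ∈ (((Finset.univ : Finset (Fin (m + 1))) ×ˢ B).powerset) ×ˢ (GB m U S),
      divX^[B.card] ((X : ℤ[X]) ^ p.1.card * X ^ (p.2.card - U.card)) =
      if (B ∪ U).card ≤ p.1.card + p.2.card then
        X ^ (p.1.card + p.2.card - (B ∪ U).card) else 0 := by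
    rintro ⟨A'', A'⟩ hp
    rw [Finset.mem_product, mem_GB] at hp
    obtain ⟨_, a1, a2⟩ := hp
    simp only at a1 a2 ⊢
    have hA' : U.card ≤ A'.card := by
      have := h1 A' a2
      rwa [cn_self a1] at this
    rw [← pow_add, iterate_divX_pow, Finset.card_union_of_disjoint hd]
    by_cases hle : B.card + U.card ≤ A''.card + A'.card
    · rw [if_pos hle, if_pos (by omega)]
      congr 1
      omega
    · rw [if_neg hle, if_neg (by omega)]
  rw [Finset.sum_congr rfl e1, ← Finset.sum_filter]
  apply Finset.sum_bij' (fun (A : Finset (Fin (m + 1) × ι)) _ =>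
      ((A.filter (fun p => p.2 ∈ B), A.filter (fun p => p.2 ∈ U)) :
        Finset (Fin (m + 1) × ι) × Finset (Fin (m + 1) × ι)))
    (fun (p : Finset (Fin (m + 1) × ι) × Finset (Fin (m + 1) × ι)) _ => p.1 ∪ p.2)
  case hi =>
    intro A hA
    rw [mem_GB] at hA
    rw [mem_filter, Finset.mem_product, mem_GB, mem_powerset]
    refine ⟨⟨?_, ⟨?_, ?_⟩⟩, ?_⟩
    · intro p hp
      rw [Finset.mem_product]
      exact ⟨Finset.mem_univ _, (mem_filter.1 hp).2⟩
    · intro p hp; exact (mem_filter.1 hp).2
    · intro F hF
      simp only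
      rw [cn_filter_of_subset (hS F hF)]
      exact hA.2 F (Finset.mem_insert_of_mem hF)
    · have h3 := hA.2 (B ∪ U) (Finset.mem_insert_self _ _)
      rw [cn_union hd] at h3
      exact h3
  case hj =>
    rintro ⟨A'', A'⟩ hp
    rw [mem_filter, Finset.mem_product, mem_GB, mem_powerset] at hp
    obtain ⟨⟨a0, ⟨a1, a2⟩⟩, a3⟩ := hp
    simp only at a0 a1 a2 a3
    have a0' : ∀ p ∈ A'', p.2 ∈ B := fun p hp => (Finset.mem_product.1 (a0 hp)).2
    have hAB := disj_cells hd a0' a1
    rw [mem_GB]
    have hsub : ∀ p ∈ A'' ∪ A', p.2 ∈ B ∪ U := by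
      intro p hp
      rw [mem_union] at hp ⊢
      rcases hp with hp | hp
      · exact Or.inl (a0' p hp)
      · exact Or.inr (a1 p hp)
    refine ⟨hsub, ?_⟩
    intro F hF
    simp only
    rw [Finset.mem_insert] at hF
    rcases hF with hF | hF
    · subst hF
      rw [cn_self hsub, Finset.card_union_of_disjoint hAB]
      exact a3
    · rw [cn_union_left hAB]
      have := a2 F hF; omega
  case left_neg =>
    intro A hA
    rw [mem_GB] at hA
    simp only
    ext p
    rw [mem_union, mem_filter, mem_filter]
    constructor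
    · rintro (h | h)
      · exact h.1
      · exact h.1
    · intro hp
      have := hA.1 p hp
      rw [mem_union] at this
      rcases this with h | h
      · exact Or.inl ⟨hp, h⟩
      · exact Or.inr ⟨hp, h⟩
  case right_neg =>
    rintro ⟨A'', A'⟩ hp
    rw [mem_filter, Finset.mem_product, mem_GB, mem_powerset] at hp
    obtain ⟨⟨a0, ⟨a1, a2⟩⟩, a3⟩ := hp
    simp only at a0 a1 a2 a3
    have a0' : ∀ p ∈ A'', p.2 ∈ B := fun p hp => (Finset.mem_product.1 (a0 hp)).2
    apply Prod.ext
    · ext p
      simp only [mem_filter, mem_union]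
      constructor
      · rintro ⟨h | h, h'⟩
        · exact h
        · exact absurd (a1 p h) (Finset.disjoint_left.1 hd h')
      · intro h; exact ⟨Or.inl h, a0' p h⟩
    · ext p
      simp only [mem_filter, mem_union]
      constructor
      · rintro ⟨h | h, h'⟩
        · exact absurd h' (Finset.disjoint_left.1 hd (a0' p h))
        · exact h
      · intro h; exact ⟨Or.inr h, a1 p h⟩
  case h =>
    intro A hA
    rw [mem_GB] at hA
    simp only
    have e3 : A.card = cn A B + cn A U := by rw [← cn_union hd, cn_self hA.1]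
    have e4 : (A.filter (fun p => p.2 ∈ B)).card = cn A B := rfl
    have e5 : (A.filter (fun p => p.2 ∈ U)).card = cn A U := rfl
    rw [e4, e5, e3]

/-- The union of a family. -/
def UU (S : Finset (Finset ι)) : Finset ι := S.biUnion id

lemma subset_UU {S : Finset (Finset ι)} {F : Finset ι} (h : F ∈ S) : F ⊆ UU S :=
  Finset.subset_biUnion_of_mem id h

/-- Laminar families. -/
def Lam (S : Finset (Finset ι)) : Prop :=
  ∀ F ∈ S, ∀ G ∈ S, F ⊆ G ∨ G ⊆ F ∨ Disjoint F G

theorem main_lam (m : ℕ) : ∀ (k : ℕ) (S : Finset (Finset ι)), S.card = k → Lam S →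
    Upper m (UU S) S ∧ Lower m (UU S) S ∧
      gp m (UU S) S = sg (fp m (UU S) S (m * (UU S).card)) := by
  intro k
  induction k using Nat.strong_induction_on with
  | _ k ih =>
    intro S hk hlam
    rcases S.eq_empty_or_nonempty with h0 | h0
    · subst h0
      have hU : UU (∅ : Finset (Finset ι)) = ∅ := by simp [UU]
      rw [hU]
      refine ⟨?_, ?_, ?_⟩
      · intro x _; simp
      · intro A _; simp
      · have e1 : fp m (∅ : Finset ι) ∅ (m * (∅ : Finset ι).card) = 1 := by
          unfold fp
          have : PB m (∅ : Finset ι) ∅ (m * (∅ : Finset ι).card) = {fun _ => 0} := by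
            ext x
            rw [mem_PB, mem_singleton]
            constructor
            · rintro ⟨h1, _, _⟩
              funext i
              exact h1 i (Finset.notMem_empty i)
            · rintro rfl
              simp
          rw [this]
          simp
        have e2 : gp m (∅ : Finset ι) ∅ = 1 := by
          unfold gp
          have : GB m (∅ : Finset ι) ∅ = {∅} := by
            ext A
            rw [mem_GB, mem_singleton]
            constructor
            · rintro ⟨h1, _⟩
              rw [Finset.eq_empty_iff_forall_notMem]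
              intro p hp
              exact Finset.notMem_empty _ (h1 p hp)
            · rintro rfl
              simp
          rw [this]
          simp
        rw [e1, e2, sg_one]
    · obtain ⟨F, hF, hmax⟩ := Finset.exists_max_image S Finset.card h0
      have hsplit : ∀ G ∈ S, G ⊆ F ∨ Disjoint G F := by
        intro G hG
        rcases hlam F hF G hG with h | h | h
        · have hc := Finset.card_le_card h
          have hc' := hmax G hG
          have := Finset.eq_of_subset_of_card_le h hc'
          left; rw [this]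
        · exact Or.inl h
        · exact Or.inr h.symm
      by_cases hall : ∀ G ∈ S, G ⊆ F
      · -- root adding
        set S' := S.erase F with hS'
        have hc' : S'.card < k := by
          rw [hS', ← hk]
          exact Finset.card_erase_lt_of_mem hF
        have hlam' : Lam S' := fun G hG H hH =>
          hlam G (Finset.mem_of_mem_erase hG) H (Finset.mem_of_mem_erase hH)
        obtain ⟨i1, i2, i3⟩ := ih S'.card hc' S' rfl hlam'
        have hUF : UU S = F := by
          apply Finset.Subset.antisymm
          · intro x hx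
            unfold UU at hx
            rw [Finset.mem_biUnion] at hx
            obtain ⟨G, hG, hxG⟩ := hx
            exact hall G hG hxG
          · exact subset_UU hF
        have hU'F : UU S' ⊆ F := by
          intro x hx
          unfold UU at hx
          rw [Finset.mem_biUnion] at hx
          obtain ⟨G, hG, hxG⟩ := hx
          exact hall G (Finset.mem_of_mem_erase hG) hxG
        set B := F \ UU S' with hB
        have hBU : B ∪ UU S' = F := Finset.sdiff_union_of_subset hU'F
        have hdB : Disjoint B (UU S') := Finset.sdiff_disjoint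
        have hSins : S = insert (B ∪ UU S') S' := by
          rw [hBU, hS', Finset.insert_erase hF]
        have hcard : F.card = B.card + (UU S').card := by
          rw [← Finset.card_union_of_disjoint hdB, hBU]
        rw [hUF]
        refine ⟨?_, ?_, ?_⟩
        · intro x hx; exact hx F hF
        · intro A hA; exact hA F hF
        · have g1 := gp_block (m := m) (UU S') S' B hdB (fun G hG => subset_UU hG) i2
          rw [← hSins, hBU] at g1
          rw [g1]
          have f1 := divX_block (m := m) (UU S') S' B hdB (fun G hG =>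
            Disjoint.mono_right (subset_UU hG) hdB) (m * F.card)
          have f2 : fp m F S (m * F.card) = fp m (B ∪ UU S') S' (m * F.card) := by
            unfold fp
            rw [hBU]
            have : PB m F S (m * F.card) = PB m F S' (m * F.card) := by
              ext x
              rw [mem_PB, mem_PB]
              constructor
              · rintro ⟨h1, h2, h3⟩
                exact ⟨h1, fun G hG => h2 G (Finset.mem_of_mem_erase hG), h3⟩
              · rintro ⟨h1, h2, h3⟩
                refine ⟨h1, fun G hG => ?_, h3⟩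
                by_cases hGF : G = F
                · subst hGF; exact h3
                · exact h2 G (Finset.mem_erase.2 ⟨hGF, hG⟩)
            rw [this]
          rw [f2, ← f1, i3]
          have f3 := fp_extend i1 (N := m * F.card + B.card) (by
            rw [hcard]; nlinarith [Nat.zero_le (m * B.card)])
          rw [f3, sg_mul, sg_pow, sg_X]
          congr 3
          rw [hcard]
          have : m * (B.card + (UU S').card) + B.card - m * (UU S').card =
              (m + 1) * B.card := by
            have : m * (B.card + (UU S').card) + B.card =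
              (m + 1) * B.card + m * (UU S').card := by ring
            omega
          rw [this]
      · -- splitting
        push Not at hall
        obtain ⟨G0, hG0, hG0F⟩ := hall
        set S1 := S.filter (fun G => G ⊆ F) with hS1
        set S2 := S.filter (fun G => ¬ G ⊆ F) with hS2
        have hS12 : S = S1 ∪ S2 := (Finset.filter_union_filter_not_eq _ S).symm
        have hcard12 : S1.card + S2.card = S.card := Finset.card_filter_add_card_filter_not _
        have hpos1 : 0 < S1.card := Finset.card_pos.2 ⟨F, mem_filter.2 ⟨hF, Finset.Subset.refl F⟩⟩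
        have hpos2 : 0 < S2.card := Finset.card_pos.2 ⟨G0, mem_filter.2 ⟨hG0, hG0F⟩⟩
        have hl1 : Lam S1 := fun G hG H hH =>
          hlam G (Finset.mem_filter.1 hG).1 H (Finset.mem_filter.1 hH).1
        have hl2 : Lam S2 := fun G hG H hH =>
          hlam G (Finset.mem_filter.1 hG).1 H (Finset.mem_filter.1 hH).1
        obtain ⟨a1, a2, a3⟩ := ih S1.card (by omega) S1 rfl hl1
        obtain ⟨b1, b2, b3⟩ := ih S2.card (by omega) S2 rfl hl2
        have hU1 : UU S1 ⊆ F := by
          intro x hx
          unfold UU at hx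
          rw [Finset.mem_biUnion] at hx
          obtain ⟨G, hG, hxG⟩ := hx
          exact (mem_filter.1 hG).2 hxG
        have hdis : Disjoint (UU S1) (UU S2) := by
          rw [Finset.disjoint_left]
          intro x hx hx2
          have hxF := hU1 hx
          unfold UU at hx2
          rw [Finset.mem_biUnion] at hx2
          obtain ⟨G, hG, hxG⟩ := hx2
          rw [mem_filter] at hG
          rcases hsplit G hG.1 with h | h
          · exact hG.2 h
          · exact Finset.disjoint_left.1 h hxG hxF
        have hUU : UU S = UU S1 ∪ UU S2 := by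
          unfold UU
          conv_lhs => rw [hS12]
          exact Finset.union_biUnion
        have hup : Upper m (UU S) S := by
          intro x hx
          rw [hUU, Finset.sum_union hdis, Finset.card_union_of_disjoint hdis, mul_add]
          have c1 := a1 x (fun G hG => hx G (Finset.mem_filter.1 hG).1)
          have c2 := b1 x (fun G hG => hx G (Finset.mem_filter.1 hG).1)
          omega
        have hlo : Lower m (UU S) S := by
          intro A hA
          rw [hUU, cn_union hdis, Finset.card_union_of_disjoint hdis]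
          have c1 := a2 A (fun G hG => hA G (Finset.mem_filter.1 hG).1)
          have c2 := b2 A (fun G hG => hA G (Finset.mem_filter.1 hG).1)
          omega
        refine ⟨hup, hlo, ?_⟩
        rw [hUU]
        conv_lhs => rw [hS12]
        conv_rhs => rw [hS12]
        rw [gp_union hdis (fun G hG => subset_UU hG) (fun G hG => subset_UU hG) a2 b2,
          fp_union hdis (fun G hG => subset_UU hG) (fun G hG => subset_UU hG) a1 b1,
          sg_mul, a3, b3]

/-- Number of lattice points equals number of 0/1 matrices. -/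
theorem card_eq (m : ℕ) (S : Finset (Finset ι)) (hlam : Lam S)
    (hu : (Finset.univ : Finset ι) ∈ S) :
    (PB m (Finset.univ : Finset ι) S (m * Fintype.card ι)).card =
      ((GB m (Finset.univ : Finset ι) S).filter (fun A => A.card = Fintype.card ι)).card := by
  obtain ⟨h1, h2, h3⟩ := main_lam m S.card S rfl hlam
  have hU : UU S = Finset.univ := by
    apply Finset.Subset.antisymm (Finset.subset_univ _)
    exact subset_UU hu
  rw [hU, Finset.card_univ] at h3
  have h4 := congrArg (Polynomial.eval 0) h3
  have e1 : Polynomial.eval 0 (sg (fp m (Finset.univ : Finset ι) S (m * Fintype.card ι))) =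
      ((PB m (Finset.univ : Finset ι) S (m * Fintype.card ι)).card : ℤ) := by
    unfold sg fp
    rw [Polynomial.eval_comp]
    simp [Polynomial.eval_finsetSum]
  have e2 : Polynomial.eval 0 (gp m (Finset.univ : Finset ι) S) =
      (((GB m (Finset.univ : Finset ι) S).filter (fun A => A.card = Fintype.card ι)).card : ℤ) := by
    unfold gp
    rw [Polynomial.eval_finsetSum, Finset.card_filter, Nat.cast_sum]
    apply Finset.sum_congr rfl
    intro A hA
    rw [mem_GB] at hA
    have hle : Fintype.card ι ≤ A.card := by
      have := h2 A hA.2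
      rw [hU, cn_self (fun p _ => Finset.mem_univ _), Finset.card_univ] at this
      exact this
    rw [Finset.card_univ]
    by_cases hc : A.card = Fintype.card ι
    · simp [hc]
    · have : A.card - Fintype.card ι ≠ 0 := by omega
      simp [hc, this]
  rw [e1, e2] at h4
  exact_mod_cast h4.symm

end Pool.Agent.MPedc851
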