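import Pool.Agent.MPedc851.Laminar2

set_option autoImplicit false

/-! Words, descents and 0/1 matrices. -/

namespace Pool.Agent.MPedc851

open Finset

/-- `c` is weakly increasing, and strictly increasing at the weak ascents of `w`. -/
def Val {k n : ℕ} (w : Fin k → Fin n) (c : Fin k → ℕ) : Prop :=
  ∀ (i : ℕ) (h : i + 1 < k), c ⟨i, by omega⟩ < c ⟨i + 1, h⟩ ∨
    (c ⟨i, by omega⟩ = c ⟨i + 1, h⟩ ∧ w ⟨i + 1, h⟩ < w ⟨i, by omega⟩)

open Classical in
/-- The admissible sequences bounded by `m`. -/
noncomputable def VS {k n : ℕ} (w : Fin k → Fin n) (m : ℕ) : Finset (Fin k → ℕ) :=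
  (Fintype.piFinset (fun _ : Fin k => range (m + 1))).filter (fun c => Val w c)

open Classical in
lemma mem_VS {k n : ℕ} {w : Fin k → Fin n} {m : ℕ} {c : Fin k → ℕ} :
    c ∈ VS w m ↔ (∀ i, c i ≤ m) ∧ Val w c := by
  unfold VS
  rw [mem_filter, Fintype.mem_piFinset]
  simp only [mem_range, Nat.lt_succ_iff]

/-- Weak ascents. -/
def asc {k n : ℕ} (w : Fin k → Fin n) : ℕ :=
  ((range k).filter (fun i => ∃ h : i + 1 < k, w ⟨i, by omega⟩ ≤ w ⟨i + 1, h⟩)).card

/-- Descents. -/
def desc {k n : ℕ} (w : Fin k → Fin n) : ℕ :=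
  ((range k).filter (fun i => ∃ h : i + 1 < k, w ⟨i + 1, h⟩ < w ⟨i, by omega⟩)).card

lemma asc_add_desc {k n : ℕ} (w : Fin k → Fin n) : asc w + desc w = k - 1 := by
  unfold asc desc
  rw [← Finset.card_union_of_disjoint]
  · have : (range k).filter (fun i => ∃ h : i + 1 < k, w ⟨i, by omega⟩ ≤ w ⟨i + 1, h⟩) ∪
      (range k).filter (fun i => ∃ h : i + 1 < k, w ⟨i + 1, h⟩ < w ⟨i, by omega⟩) =
      range (k - 1) := by
      ext i
      rw [mem_union, mem_filter, mem_filter, mem_range, mem_range]
      constructor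
      · rintro (⟨_, h, _⟩ | ⟨_, h, _⟩) <;> omega
      · intro hi
        have h : i + 1 < k := by omega
        rcases le_or_gt (w ⟨i, by omega⟩) (w ⟨i + 1, h⟩) with h1 | h1
        · left; exact ⟨by omega, h, h1⟩
        · right; exact ⟨by omega, h, h1⟩
    rw [this, card_range]
  · rw [Finset.disjoint_left]
    intro i hi hj
    rw [mem_filter] at hi hj
    obtain ⟨_, h1, h2⟩ := hi
    obtain ⟨_, h3, h4⟩ := hj
    exact absurd h2 (not_le.2 h4)

lemma Val.le {k n : ℕ} {w : Fin k → Fin n} {c : Fin k → ℕ} (h : Val w c) :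
    ∀ (i j : ℕ) (hij : i ≤ j) (hj : j < k), c ⟨i, by omega⟩ ≤ c ⟨j, hj⟩ := by
  intro i j hij
  induction j, hij using Nat.le_induction with
  | base => intro _; exact le_rfl
  | succ j hij ih =>
    intro hj
    refine (ih (by omega)).trans ?_
    rcases h j hj with h1 | h1
    · exact h1.le
    · exact h1.1.le

/-- The shift at the last position. -/
def dl {k n : ℕ} (w : Fin (k + 1) → Fin n) : ℕ :=
  if ∃ h : 0 < k, w ⟨k - 1, by omega⟩ ≤ w ⟨k, by omega⟩ then 1 else 0

lemma asc_succ {k n : ℕ} (w : Fin (k + 1) → Fin n) :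
    asc w = asc (fun i : Fin k => w i.castSucc) + dl w := by
  unfold asc dl
  by_cases hd : ∃ h : 0 < k, w ⟨k - 1, by omega⟩ ≤ w ⟨k, by omega⟩
  · rw [if_pos hd]
    obtain ⟨hk, hw⟩ := hd
    have : (range (k + 1)).filter (fun i => ∃ h : i + 1 < k + 1, w ⟨i, by omega⟩ ≤ w ⟨i + 1, h⟩) =
        insert (k - 1) ((range k).filter (fun i => ∃ h : i + 1 < k,
          w (Fin.castSucc ⟨i, by omega⟩) ≤ w (Fin.castSucc ⟨i + 1, h⟩))) := by
      ext i
      rw [mem_insert, mem_filter, mem_filter, mem_range, mem_range]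
      constructor
      · rintro ⟨_, h1, h2⟩
        by_cases hi : i = k - 1
        · left; exact hi
        · right; exact ⟨by omega, by omega, h2⟩
      · rintro (hi | ⟨_, h1, h2⟩)
        · refine ⟨by omega, by omega, ?_⟩
          have e1 : (⟨i, by omega⟩ : Fin (k + 1)) = ⟨k - 1, by omega⟩ := Fin.ext hi
          have e2 : (⟨i + 1, by omega⟩ : Fin (k + 1)) = ⟨k, by omega⟩ := Fin.ext (by simp; omega)
          rw [e1, e2]
          exact hw
        · exact ⟨by omega, by omega, h2⟩
    rw [this, card_insert_of_notMem]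
    rw [mem_filter]
    rintro ⟨_, h, _⟩
    omega
  · rw [if_neg hd, add_zero]
    congr 1
    ext i
    rw [mem_filter, mem_filter, mem_range, mem_range]
    constructor
    · rintro ⟨h0, h1, h2⟩
      by_cases hi : i = k - 1
      · exfalso
        apply hd
        have hk : 0 < k := by omega
        refine ⟨hk, ?_⟩
        have e1 : (⟨i, by omega⟩ : Fin (k + 1)) = ⟨k - 1, by omega⟩ := Fin.ext hi
        have e2 : (⟨i + 1, by omega⟩ : Fin (k + 1)) = ⟨k, by omega⟩ := Fin.ext (by simp; omega)
        rw [e1, e2] at h2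
        exact h2
      · exact ⟨by omega, by omega, h2⟩
    · rintro ⟨_, h1, h2⟩
      exact ⟨by omega, by omega, h2⟩

lemma val_snoc {k n : ℕ} (w : Fin (k + 1) → Fin n) (c : Fin k → ℕ) (x : ℕ) :
    Val w (Fin.snoc c x : Fin (k + 1) → ℕ) ↔ Val (fun i : Fin k => w i.castSucc) c ∧
      ∀ i, c i + dl w ≤ x := by
  have hlast : ∀ h : k < k + 1, (Fin.snoc c x : Fin (k + 1) → ℕ) ⟨k, h⟩ = x := by
    intro h
    exact Fin.snoc_last (α := fun _ => ℕ) x c
  have hinit : ∀ (i : ℕ) (h : i < k) (h' : i < k + 1),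
      (Fin.snoc c x : Fin (k + 1) → ℕ) ⟨i, h'⟩ = c ⟨i, h⟩ := by
    intro i h h'
    exact Fin.snoc_castSucc (α := fun _ => ℕ) x c ⟨i, h⟩
  constructor
  · intro hv
    have h1 : Val (fun i : Fin k => w i.castSucc) c := by
      intro i hi
      have := hv i (by omega)
      rw [hinit i (by omega), hinit (i + 1) hi] at this
      exact this
    refine ⟨h1, ?_⟩
    intro i
    have hk : 0 < k := by have := i.2; omega
    have h2 : c i ≤ c ⟨k - 1, by omega⟩ := h1.le i.1 (k - 1) (by have := i.2; omega) (by omega)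
    have h3 := hv (k - 1) (by omega)
    have e : ∀ h, (⟨k - 1 + 1, h⟩ : Fin (k + 1)) = ⟨k, by omega⟩ := by
      intro h; exact Fin.ext (by simp; omega)
    rw [hinit (k - 1) (by omega), e, hlast] at h3
    unfold dl
    by_cases hd : ∃ h : 0 < k, w ⟨k - 1, by omega⟩ ≤ w ⟨k, by omega⟩
    · rw [if_pos hd]
      obtain ⟨_, hw⟩ := hd
      rcases h3 with h3 | h3
      · omega
      · exact absurd hw (not_le.2 h3.2)
    · rw [if_neg hd]
      rcases h3 with h3 | h3
      · omega
      · omega
  · rintro ⟨h1, h2⟩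
    intro i hi
    by_cases hik : i + 1 < k
    · rw [hinit i (by omega), hinit (i + 1) hik]
      exact h1 i hik
    · have hk : 0 < k := by omega
      have e0 : i = k - 1 := by omega
      subst e0
      have e : ∀ h, (⟨k - 1 + 1, h⟩ : Fin (k + 1)) = ⟨k, by omega⟩ := by
        intro h; exact Fin.ext (by simp; omega)
      rw [hinit (k - 1) (by omega), e, hlast]
      have h3 := h2 ⟨k - 1, by omega⟩
      unfold dl at h3
      by_cases hd : ∃ h : 0 < k, w ⟨k - 1, by omega⟩ ≤ w ⟨k, by omega⟩
      · rw [if_pos hd] at h3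
        left; omega
      · rw [if_neg hd] at h3
        have hw : w ⟨k, by omega⟩ < w ⟨k - 1, by omega⟩ := by
          rw [← not_le]
          intro hle
          exact hd ⟨hk, hle⟩
        rcases Nat.lt_or_ge (c ⟨k - 1, by omega⟩) x with h4 | h4
        · left; exact h4
        · right
          exact ⟨by omega, hw⟩

lemma card_VS_succ {k n : ℕ} (w : Fin (k + 1) → Fin n) (m : ℕ) :
    (VS w m).card = ∑ x ∈ range (m + 1),
      if dl w ≤ x then (VS (fun i : Fin k => w i.castSucc) (x - dl w)).card else 0 := by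
  rw [← Finset.sum_filter, ← Finset.card_sigma]
  symm
  apply Finset.card_bij' (fun (p : Σ _ : ℕ, (Fin k → ℕ)) _ => (Fin.snoc p.2 p.1 : Fin (k + 1) → ℕ))
    (fun (c : Fin (k + 1) → ℕ) _ => (⟨c (Fin.last k), fun i => c i.castSucc⟩ :
      Σ _ : ℕ, (Fin k → ℕ)))
  case hi =>
    rintro ⟨x, c⟩ hp
    rw [mem_sigma, mem_filter, mem_range, mem_VS] at hp
    obtain ⟨⟨h1, h2⟩, h3, h4⟩ := hp
    simp only at h1 h2 h3 h4
    rw [mem_VS]
    constructor
    · intro i
      refine Fin.lastCases ?_ ?_ i
      · simp only [Fin.snoc_last]; omega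
      · intro j
        simp only [Fin.snoc_castSucc]
        have := h3 j
        omega
    · simp only
      rw [val_snoc]
      refine ⟨h4, ?_⟩
      intro i
      have := h3 i
      omega
  case hj =>
    intro c hc
    rw [mem_VS] at hc
    obtain ⟨h1, h2⟩ := hc
    have hs : c = (Fin.snoc (fun i : Fin k => c i.castSucc) (c (Fin.last k)) : Fin (k + 1) → ℕ) := by
      exact (Fin.snoc_init_self c).symm
    rw [hs, val_snoc] at h2
    obtain ⟨h3, h4⟩ := h2
    rw [mem_sigma, mem_filter, mem_range, mem_VS]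
    simp only
    have h5 := h1 (Fin.last k)
    refine ⟨⟨by omega, ?_⟩, ?_, h3⟩
    · by_cases hk : 0 < k
      · have := h4 ⟨0, hk⟩
        omega
      · have : dl w = 0 := by
          unfold dl
          rw [if_neg]
          rintro ⟨h, _⟩
          exact hk h
        omega
    · intro i
      have := h4 i
      omega
  case left_inv =>
    rintro ⟨x, c⟩ hp
    simp only [Fin.snoc_last, Fin.snoc_castSucc]
  case right_inv =>
    intro c hc
    exact Fin.snoc_init_self c

open PowerSeries in
lemma series_VS {n : ℕ} : ∀ (k : ℕ) (w : Fin k → Fin n),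
    (1 - PowerSeries.X : PowerSeries ℤ) ^ (k + 1) *
      PowerSeries.mk (fun m => ((VS w m).card : ℤ)) = PowerSeries.X ^ (asc w) := by
  have hsum : ∀ u : ℕ → ℤ, (1 - PowerSeries.X : PowerSeries ℤ) *
      PowerSeries.mk (fun m => ∑ x ∈ range (m + 1), u x) = PowerSeries.mk u := by
    intro u
    ext d
    rw [sub_mul, one_mul, map_sub, PowerSeries.coeff_mk, PowerSeries.coeff_mk]
    cases d with
    | zero => simp
    | succ d =>
      rw [PowerSeries.coeff_succ_X_mul, PowerSeries.coeff_mk, Finset.sum_range_succ]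
      ring
  intro k
  induction k with
  | zero =>
    intro w
    have h1 : ∀ m, (VS w m).card = 1 := by
      intro m
      rw [Finset.card_eq_one]
      refine ⟨fun _ => 0, ?_⟩
      ext c
      rw [mem_VS, mem_singleton]
      constructor
      · intro _
        funext i
        exact i.elim0
      · intro _
        exact ⟨fun i => i.elim0, fun i h => by omega⟩
    have h2 : asc w = 0 := by
      unfold asc
      simp
    rw [h2]
    have h3 := hsum (fun x => if x = 0 then 1 else 0)
    have h4 : (PowerSeries.mk (fun m => ((VS w m).card : ℤ))) =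
        PowerSeries.mk (fun m => ∑ x ∈ range (m + 1), if x = 0 then (1 : ℤ) else 0) := by
      ext d
      rw [PowerSeries.coeff_mk, PowerSeries.coeff_mk, h1]
      simp
    rw [h4, zero_add, pow_one, h3, pow_zero]
    ext d
    rw [PowerSeries.coeff_mk, PowerSeries.coeff_one]
  | succ k ih =>
    intro w
    have h1 : (PowerSeries.mk (fun m => ((VS w m).card : ℤ))) =
        PowerSeries.mk (fun m => ∑ x ∈ range (m + 1),
          (if dl w ≤ x then ((VS (fun i : Fin k => w i.castSucc) (x - dl w)).card : ℤ) else 0)) := by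
      ext d
      rw [PowerSeries.coeff_mk, PowerSeries.coeff_mk, card_VS_succ]
      push_cast
      rfl
    have h2 : (PowerSeries.mk (fun x => (if dl w ≤ x then
        ((VS (fun i : Fin k => w i.castSucc) (x - dl w)).card : ℤ) else 0))) =
        PowerSeries.X ^ (dl w) *
          PowerSeries.mk (fun x => ((VS (fun i : Fin k => w i.castSucc) x).card : ℤ)) := by
      ext d
      rw [PowerSeries.coeff_mk, PowerSeries.coeff_X_pow_mul']
      split_ifs
      · rw [PowerSeries.coeff_mk]
      · rfl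
    rw [h1, pow_succ, mul_assoc, hsum, h2, mul_left_comm, ih, ← pow_add, asc_succ, add_comm]

end Pool.Agent.MPedc851
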