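import Pool.Agent.MPedc851.Words

set_option autoImplicit false

/-! Words, descents and 0/1 matrices, part two. -/

namespace Pool.Agent.MPedc851

open Finset

/-- The ordered cells. -/
abbrev Cell (m n : ℕ) : Type := Fin (m + 1) ×ₗ (Fin n)ᵒᵈ

/-- Cell to ordered cell. -/
def toCell {m n : ℕ} (p : Fin (m + 1) × Fin n) : Cell m n := toLex (p.1, OrderDual.toDual p.2)

/-- Ordered cell to cell. -/
def ofCell {m n : ℕ} (q : Cell m n) : Fin (m + 1) × Fin n :=
  ((ofLex q).1, OrderDual.ofDual (ofLex q).2)

lemma ofCell_toCell {m n : ℕ} (p : Fin (m + 1) × Fin n) : ofCell (toCell p) = p := rfl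
lemma toCell_ofCell {m n : ℕ} (q : Cell m n) : toCell (ofCell q) = q := rfl

lemma toCell_inj {m n : ℕ} : Function.Injective (toCell (m := m) (n := n)) := by
  intro p q h
  rw [← ofCell_toCell p, h, ofCell_toCell]

lemma toCell_lt {m n : ℕ} (p q : Fin (m + 1) × Fin n) :
    toCell p < toCell q ↔ p.1 < q.1 ∨ (p.1 = q.1 ∧ q.2 < p.2) := by
  unfold toCell
  rw [Prod.Lex.toLex_lt_toLex]
  rfl

/-- The cell at position `j`. -/
def cellAt {k n : ℕ} (m : ℕ) (w : Fin k → Fin n) (c : Fin k → ℕ) (j : Fin k) :
    Fin (m + 1) × Fin n := (Fin.ofNat (m + 1) (c j), w j)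

lemma cellAt_val {k n : ℕ} {m : ℕ} {w : Fin k → Fin n} {c : Fin k → ℕ} (h : ∀ i, c i ≤ m)
    (j : Fin k) : ((cellAt m w c j).1 : ℕ) = c j := by
  unfold cellAt
  simp only [Fin.val_ofNat]
  exact Nat.mod_eq_of_lt (Nat.lt_succ_of_le (h j))

lemma strictMono_cell {k n : ℕ} {m : ℕ} {w : Fin k → Fin n} {c : Fin k → ℕ} (h : ∀ i, c i ≤ m)
    (hv : Val w c) : StrictMono (fun j => toCell (cellAt m w c j)) := by
  cases k with
  | zero => intro i; exact i.elim0
  | succ k =>
    rw [Fin.strictMono_iff_lt_succ]
    intro i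
    rw [toCell_lt]
    have h1 := hv i.1 (by have := i.2; omega)
    rcases h1 with h1 | ⟨h1, h2⟩
    · left
      rw [Fin.lt_def, cellAt_val h, cellAt_val h]
      exact h1
    · right
      refine ⟨?_, h2⟩
      apply Fin.ext
      rw [cellAt_val h, cellAt_val h]
      exact h1

lemma words_matrices (m k n : ℕ) (S : Finset (Finset (Fin n))) :
    ∑ w ∈ Finset.univ.filter (fun w : Fin k → Fin n =>
        ∀ F ∈ S, F.card ≤ (Finset.univ.filter (fun j => w j ∈ F)).card), (VS w m).card =
      ((GB m (Finset.univ : Finset (Fin n)) S).filter (fun A => A.card = k)).card := by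
  rw [← Finset.card_sigma]
  have hcn : ∀ (w : Fin k → Fin n) (c : Fin k → ℕ), (∀ i, c i ≤ m) → Val w c → ∀ F : Finset (Fin n),
      cn (Finset.univ.image (cellAt m w c)) F =
        (Finset.univ.filter (fun j => w j ∈ F)).card := by
    intro w c h hv F
    have hinj : Function.Injective (cellAt m w c) := by
      intro i j hij
      exact (strictMono_cell h hv).injective (congrArg toCell hij)
    unfold cn
    rw [Finset.filter_image, Finset.card_image_of_injective _ hinj]
    rfl
  apply Finset.card_bij (fun (p : Σ _ : (Fin k → Fin n), (Fin k → ℕ)) _ =>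
    Finset.univ.image (cellAt m p.1 p.2))
  · rintro ⟨w, c⟩ hp
    rw [mem_sigma, mem_filter, mem_VS] at hp
    obtain ⟨⟨_, h1⟩, h2, h3⟩ := hp
    simp only at h1 h2 h3
    have hinj : Function.Injective (cellAt m w c) := by
      intro i j hij
      exact (strictMono_cell h2 h3).injective (congrArg toCell hij)
    rw [mem_filter, mem_GB]
    refine ⟨⟨fun p _ => Finset.mem_univ _, ?_⟩, ?_⟩
    · intro F hF
      rw [hcn w c h2 h3 F]
      exact h1 F hF
    · rw [Finset.card_image_of_injective _ hinj, Finset.card_univ, Fintype.card_fin]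
  · rintro ⟨w, c⟩ hp ⟨w', c'⟩ hp' heq
    rw [mem_sigma, mem_filter, mem_VS] at hp hp'
    obtain ⟨_, h2, h3⟩ := hp
    obtain ⟨_, h2', h3'⟩ := hp'
    simp only at h2 h3 h2' h3' heq
    have hs := strictMono_cell h2 h3
    have hs' := strictMono_cell h2' h3'
    set s : Finset (Cell m n) := (Finset.univ.image (cellAt m w c)).image toCell with hsdef
    have hcard : s.card = k := by
      rw [hsdef, Finset.image_image,
        Finset.card_image_of_injective (f := toCell ∘ cellAt m w c) _ hs.injective,
        Finset.card_univ, Fintype.card_fin]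
    have e1 := Finset.orderEmbOfFin_unique hcard (f := fun j => toCell (cellAt m w c j))
      (fun j => Finset.mem_image_of_mem _ (Finset.mem_image_of_mem _ (Finset.mem_univ j))) hs
    have e2 := Finset.orderEmbOfFin_unique hcard (f := fun j => toCell (cellAt m w' c' j))
      (fun j => by
        rw [hsdef, heq]
        exact Finset.mem_image_of_mem _ (Finset.mem_image_of_mem _ (Finset.mem_univ j))) hs'
    have e3 : ∀ j, cellAt m w c j = cellAt m w' c' j := by
      intro j
      apply toCell_inj
      have := congrFun (e1.trans e2.symm) j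
      exact this
    have ew : w = w' := by
      funext j
      exact congrArg Prod.snd (e3 j)
    have ec : c = c' := by
      funext j
      rw [← cellAt_val h2 j, ← cellAt_val h2' j, e3 j]
    subst ew; subst ec
    rfl
  · intro A hA
    rw [mem_filter, mem_GB] at hA
    obtain ⟨⟨_, hA1⟩, hA2⟩ := hA
    have hcard : (A.image toCell).card = k := by
      rw [Finset.card_image_of_injective _ toCell_inj, hA2]
    set e := (A.image toCell).orderEmbOfFin hcard with he
    have hlt : ∀ i : Fin k, ((ofCell (e i)).1 : ℕ) ≤ m := by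
      intro i
      have := (ofCell (e i)).1.2
      omega
    have hv : Val (fun j => (ofCell (e j)).2) (fun j => ((ofCell (e j)).1 : ℕ)) := by
      intro i hi
      have h1 : e ⟨i, by omega⟩ < e ⟨i + 1, hi⟩ := e.strictMono (by
        rw [Fin.lt_def]; exact Nat.lt_succ_self i)
      rw [← toCell_ofCell (e ⟨i, by omega⟩), ← toCell_ofCell (e ⟨i + 1, hi⟩), toCell_lt] at h1
      rcases h1 with h1 | ⟨h1, h2⟩
      · left; exact h1
      · right; exact ⟨congrArg Fin.val h1, h2⟩
    have hcell : ∀ j, cellAt m (fun j => (ofCell (e j)).2) (fun j => ((ofCell (e j)).1 : ℕ)) j =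
        ofCell (e j) := by
      intro j
      apply Prod.ext
      · apply Fin.ext
        exact cellAt_val hlt j
      · rfl
    have himg : Finset.univ.image
        (cellAt m (fun j => (ofCell (e j)).2) (fun j => ((ofCell (e j)).1 : ℕ))) = A := by
      ext p
      rw [Finset.mem_image]
      constructor
      · rintro ⟨j, _, rfl⟩
        rw [hcell]
        have h1 : e j ∈ A.image toCell := Finset.orderEmbOfFin_mem _ hcard j
        rw [Finset.mem_image] at h1
        obtain ⟨q, hq, hq2⟩ := h1
        rw [← hq2, ofCell_toCell]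
        exact hq
      · intro hp
        have h1 : toCell p ∈ Set.range e := by
          rw [he, Finset.range_orderEmbOfFin]
          exact Finset.mem_coe.2 (Finset.mem_image_of_mem _ hp)
        obtain ⟨j, hj⟩ := h1
        refine ⟨j, Finset.mem_univ _, ?_⟩
        rw [hcell, hj, ofCell_toCell]
    refine ⟨⟨fun j => (ofCell (e j)).2, fun j => ((ofCell (e j)).1 : ℕ)⟩, ?_, himg⟩
    rw [mem_sigma, mem_filter, mem_VS]
    refine ⟨⟨Finset.mem_univ _, ?_⟩, hlt, hv⟩
    intro F hF
    rw [← hcn _ _ hlt hv F, himg]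
    exact hA1 F hF

end Pool.Agent.MPedc851
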